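import Pool.Agent.Q46.ND.StmE

/-!
# Task EJ of project LN: distinct critical values
-/

set_option autoImplicit false

open MvPolynomial

namespace Pool.Agent.Q142.LN

open Pool.Agent.Q46.ND

theorem pderiv_fermat {m d : ℕ} (a : Fin m → ℂ) (i : Fin m) :
    pderiv i (∑ i, (X i ^ d - C (a i) * X i) : MvPolynomial (Fin m) ℂ) =
      C (d : ℂ) * X i ^ (d - 1) - C (a i) := by
  rw [map_sum, Finset.sum_eq_single i]
  · rw [map_sub, pderiv_pow, pderiv_C_mul, pderiv_X_self, mul_one]
    simp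
  · intro j _ hj
    rw [map_sub, pderiv_pow, pderiv_C_mul, pderiv_X_of_ne hj]
    simp
  · intro h
    exact absurd (Finset.mem_univ i) h

theorem exists_generic {m n : ℕ} (z : Fin n → ℂ) (hz : Function.Injective z) :
    ∃ y : Fin m → ℂ, ∀ β β' : Fin m → Fin n, β ≠ β' → ∑ i, (z (β i) - z (β' i)) * y i ≠ 0 := by
  classical
  have hfac : ∀ β β' : Fin m → Fin n, β ≠ β' →
      (∑ i, C (z (β i) - z (β' i)) * X i : MvPolynomial (Fin m) ℂ) ≠ 0 := by
    intro β β' h h0
    obtain ⟨i, hi⟩ := Function.ne_iff.1 h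
    have := congrArg (eval (Pi.single i (1 : ℂ))) h0
    rw [map_sum, Finset.sum_eq_single i] at this
    · simp only [map_mul, eval_C, eval_X, Pi.single_eq_same, mul_one, map_zero] at this
      exact hi (hz (sub_eq_zero.1 this))
    · intro j _ hj
      simp [hj]
    · intro h
      exact absurd (Finset.mem_univ i) h
  have hP : (∏ p ∈ (Finset.univ : Finset (Fin m → Fin n)).offDiag,
      (∑ i, C (z (p.1 i) - z (p.2 i)) * X i : MvPolynomial (Fin m) ℂ)) ≠ 0 := by
    rw [Finset.prod_ne_zero_iff]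
    intro p hp
    rw [Finset.mem_offDiag] at hp
    exact hfac p.1 p.2 hp.2.2
  have : ∃ y : Fin m → ℂ, eval y (∏ p ∈ (Finset.univ : Finset (Fin m → Fin n)).offDiag,
      (∑ i, C (z (p.1 i) - z (p.2 i)) * X i : MvPolynomial (Fin m) ℂ)) ≠ 0 := by
    by_contra hcon
    push Not at hcon
    apply hP
    apply MvPolynomial.funext
    intro x
    rw [hcon x, map_zero]
  obtain ⟨y, hy⟩ := this
  refine ⟨y, fun β β' h => ?_⟩
  rw [map_prod, Finset.prod_ne_zero_iff] at hy
  have := hy (β, β') (by rw [Finset.mem_offDiag]; exact ⟨Finset.mem_univ _, Finset.mem_univ _, h⟩)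
  simpa [map_sum] using this

theorem t_EJ : P_EJ := by
  intro m d hd
  have hd1 : d - 1 ≠ 0 := by omega
  obtain ⟨ζ, hζ⟩ : ∃ ζ : ℂ, IsPrimitiveRoot ζ (d - 1) :=
    ⟨_, Complex.isPrimitiveRoot_exp (d - 1) hd1⟩
  set z : Fin (d - 1) → ℂ := fun j => ζ ^ (j : ℕ) with hzdef
  have hzinj : Function.Injective z := by
    intro i j hij
    exact Fin.ext (hζ.pow_inj i.2 j.2 hij)
  have hz1 : ∀ j, z j ^ (d - 1) = 1 := by
    intro j
    rw [hzdef]
    dsimp only
    rw [← pow_mul, mul_comm, pow_mul, hζ.pow_eq_one, one_pow]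
  obtain ⟨y, hy⟩ := exists_generic (m := m) z hzinj
  have hb : ∀ i, ∃ b : ℂ, b ^ d = y i := fun i =>
    IsAlgClosed.exists_pow_nat_eq (y i) (by omega)
  choose b hb using hb
  have hpow : ∀ x : ℂ, x ^ d = x ^ (d - 1) * x := by
    intro x
    rw [← pow_succ]
    congr 1
    omega
  have hval : ∀ β : BB m d, eval (fun i => z (β i) * b i)
      (∑ i, (X i ^ d - C ((d : ℂ) * b i ^ (d - 1)) * X i) : MvPolynomial (Fin m) ℂ) =
      (1 - (d : ℂ)) * ∑ i, z (β i) * y i := by
    intro β
    rw [map_sum, Finset.mul_sum]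
    refine Finset.sum_congr rfl fun i _ => ?_
    simp only [map_sub, map_mul, map_pow, eval_X, eval_C]
    rw [← hb i, hpow (z (β i) * b i), hpow (b i), mul_pow, hz1]
    ring
  refine ⟨fun i => (d : ℂ) * b i ^ (d - 1), fun β i => z (β i) * b i, ?_, ?_⟩
  · intro β i
    rw [pderiv_fermat]
    simp only [map_sub, map_mul, map_pow, eval_X, eval_C]
    rw [mul_pow, hz1]
    ring
  · intro β β' h
    dsimp only at h
    rw [hval, hval] at h
    by_contra hne
    apply hy β β' hne
    have h1 : (1 - (d : ℂ)) ≠ 0 := by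
      intro h0
      have : (d : ℂ) = 1 := by linear_combination -h0
      have : d = 1 := by exact_mod_cast this
      omega
    have h2 := mul_left_cancel₀ h1 h
    rw [← sub_eq_zero, ← Finset.sum_sub_distrib] at h2
    rw [← h2]
    exact Finset.sum_congr rfl fun i _ => by ring

end Pool.Agent.Q142.LN
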