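import Pool.Agent.Q46.ND.StmE

/-!
# Task EL of project LN: affine and projective derivatives
-/

set_option autoImplicit false

open MvPolynomial

namespace Pool.Agent.Q142.LN

open Pool.Agent.Q46.ND

section
variable {A : Type} [CommRing A] {m d : ℕ}

theorem aff_C (a : A) : aff (m := m) (C a) = C a := by
  unfold aff
  simp

theorem aff_add (p q : MvPolynomial (Fin (m + 1)) A) : aff (p + q) = aff p + aff q := by
  unfold aff
  simp

theorem aff_mul (p q : MvPolynomial (Fin (m + 1)) A) : aff (p * q) = aff p * aff q := by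
  unfold aff
  simp

theorem aff_zero : aff (m := m) (0 : MvPolynomial (Fin (m + 1)) A) = 0 := by
  unfold aff
  simp

theorem aff_one : aff (m := m) (1 : MvPolynomial (Fin (m + 1)) A) = 1 := by
  unfold aff
  simp

theorem aff_X0 : aff (m := m) (X 0 : MvPolynomial (Fin (m + 1)) A) = 1 := by
  unfold aff
  simp

theorem aff_Xs (i : Fin m) : aff (m := m) (X i.succ : MvPolynomial (Fin (m + 1)) A) = X i := by
  unfold aff
  simp

theorem pderiv_aff (f : MvPolynomial (Fin (m + 1)) A) (i : Fin m) :
    pderiv i (aff f) = aff (pderiv i.succ f) := by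
  induction f using MvPolynomial.induction_on with
  | C a => rw [aff_C, pderiv_C, pderiv_C, aff_zero]
  | add p q hp hq => rw [aff_add, map_add, map_add, aff_add, hp, hq]
  | mul_X p n hp =>
    rw [aff_mul, pderiv_mul, pderiv_mul, aff_add, aff_mul, aff_mul, hp]
    congr 1
    congr 1
    refine Fin.cases ?_ (fun j => ?_) n
    · rw [aff_X0, pderiv_X_of_ne (by exact (Fin.succ_ne_zero i).symm), aff_zero]
      exact pderiv_one
    · rw [aff_Xs]
      by_cases h : j = i
      · subst h
        rw [pderiv_X_self, pderiv_X_self, aff_one]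
      · rw [pderiv_X_of_ne h, pderiv_X_of_ne (fun h' => h (Fin.succ_injective _ h')), aff_zero]

theorem eval_aff (f : MvPolynomial (Fin (m + 1)) A) (v : Fin (m + 1) → A) (hv : v 0 = 1) :
    eval v f = eval (fun i => v i.succ) (aff f) := by
  induction f using MvPolynomial.induction_on with
  | C a => rw [aff_C, eval_C, eval_C]
  | add p q hp hq => rw [aff_add, map_add, map_add, hp, hq]
  | mul_X p n hp =>
    rw [aff_mul, map_mul, map_mul, hp]
    congr 1
    refine Fin.cases ?_ (fun j => ?_) n
    · rw [aff_X0, eval_X, map_one, hv]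
    · rw [aff_Xs, eval_X, eval_X]

theorem eval_scale {σ : Type} [Fintype σ] {n : ℕ} {f : MvPolynomial σ A} (hf : f.IsHomogeneous n)
    (c : A) (v : σ → A) : eval (fun j => c * v j) f = c ^ n * eval v f := by
  rw [eval_eq', eval_eq', Finset.mul_sum]
  refine Finset.sum_congr rfl fun α hα => ?_
  have h1 : ∑ i, α i = n := by
    rw [hf.degree_eq_sum_deg_support hα]
    exact (Finsupp.degree_eq_sum α).symm.trans (Finsupp.degree_apply α)
  simp_rw [mul_pow]
  rw [Finset.prod_mul_distrib, Finset.prod_pow_eq_pow_sum, h1]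
  ring

end

theorem t_EL : P_EL := by
  intro A _ m d f
  refine ⟨fun i => pderiv_aff f i, fun v hv => eval_aff f v hv, fun hf c v => ⟨?_, ?_, ?_⟩⟩
  · exact eval_scale hf c v
  · intro j
    exact eval_scale hf.pderiv c v
  · have h := congrArg (eval v) hf.sum_X_mul_pderiv
    rw [map_sum, map_nsmul, nsmul_eq_mul] at h
    rw [← h]
    refine Finset.sum_congr rfl fun j _ => ?_
    rw [map_mul, eval_X]

end Pool.Agent.Q142.LN
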