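import Pool.Agent.Q46.ND.StmE

/-!
# Task EO of project LN: lifting of the lone singular point
-/

set_option autoImplicit false

open MvPolynomial

namespace Pool.Agent.Q142.LN

open Pool.Agent.Q46.ND

theorem hom_eval {σ A B : Type} [CommRing A] [CommRing B] (φ : A →+* B) (b : σ → A)
    (P : MvPolynomial σ A) : φ (eval b P) = eval (fun j => φ (b j)) (map φ P) := by
  induction P using MvPolynomial.induction_on with
  | C a => simp
  | add p q hp hq => simp [hp, hq]
  | mul_X p n hp => simp [hp]

theorem hom_det {m : ℕ} {A B : Type} [CommRing A] [CommRing B] (φ : A →+* B)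
    (b : Fin (m + 1) → A) (f : MvPolynomial (Fin (m + 1)) A) :
    φ (Matrix.det (Matrix.of fun i j : {j : Fin (m + 1) // j ≠ 0} =>
      eval b (pderiv i.1 (pderiv j.1 f)))) =
    Matrix.det (Matrix.of fun i j : {j : Fin (m + 1) // j ≠ 0} =>
      eval (fun j => φ (b j)) (pderiv i.1 (pderiv j.1 (map φ f)))) := by
  rw [RingHom.map_det]
  congr 1
  ext i j
  rw [RingHom.mapMatrix_apply, Matrix.map_apply, Matrix.of_apply, Matrix.of_apply, hom_eval,
    pderiv_map, pderiv_map]

theorem t_EO : P_EO := by
  intro O _ 𝔭 m f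
  refine ⟨?_, ?_⟩
  · intro _ k _ φ hker hsur hL
    obtain ⟨b', hb0, hpts, hdet⟩ := hL
    choose g hg using hsur
    set b : Fin (m + 1) → O := fun j => if j = 0 then 1 else g (b' j) with hb
    have hφb : ∀ j, φ (b j) = b' j := by
      intro j
      rw [hb]
      dsimp only
      split_ifs with h
      · rw [h, hb0, map_one]
      · exact hg _
    have hφb' : (fun j => φ (b j)) = b' := funext hφb
    refine ⟨b, by simp [hb], ?_, ?_⟩
    · intro k₁ _ ψ hψ v hv h1 h2 j
      obtain ⟨ψ', hψ'⟩ : ∃ ψ' : k →+* k₁, ψ'.comp φ = ψ := by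
        refine ⟨φ.liftOfRightInverse g hg ⟨ψ, ?_⟩, ?_⟩
        · rw [hker, hψ]
        · exact RingHom.liftOfRightInverse_comp _ _ _ _
      have := hpts k₁ ψ' v hv (fun j => by
        rw [pderiv_map, map_map, hψ']
        exact h1 j) (by rw [map_map, hψ']; exact h2) j
      rw [this, ← hφb j, ← hψ']
      rfl
    · intro h1 h2 h3
      refine hdet ?_ ?_ ?_
      · intro j
        rw [pderiv_map, ← hφb', ← hom_eval]
        have := h1 j
        rwa [← hker, RingHom.mem_ker] at this
      · rw [← hφb', ← hom_eval]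
        rwa [← hker, RingHom.mem_ker] at h2
      · rw [← hφb', ← hom_det]
        rwa [← hker, RingHom.mem_ker] at h3
  · intro O' _ θ 𝔓 hcom hL
    obtain ⟨b, hb0, hpts, hdet⟩ := hL
    refine ⟨fun j => θ (b j), by dsimp only; rw [hb0, map_one], ?_, ?_⟩
    · intro k₁ _ ψ hψ v hv h1 h2 j
      have := hpts k₁ (ψ.comp θ) (by rw [← RingHom.comap_ker, hψ, hcom]) v hv (fun j => by
        have := h1 j
        rwa [pderiv_map, map_map] at this) (by rwa [map_map] at h2) j
      exact this
    · intro h1 h2 h3
      refine hdet ?_ ?_ ?_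
      · intro j
        have := h1 j
        rw [pderiv_map, ← hom_eval] at this
        rw [← hcom]
        exact this
      · rw [← hom_eval] at h2
        rw [← hcom]
        exact h2
      · rw [← hom_det] at h3
        rw [← hcom]
        exact h3

end Pool.Agent.Q142.LN
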