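import Pool.Agent.Q46.ND.StmF

/-!
# Task FE of project LN: permutations of the variables, no common factor
-/

set_option autoImplicit false

open MvPolynomial

namespace Pool.Agent.Q142.LN

open Pool.Agent.Q46.ND

theorem perm_perm {m d : ℕ} (σ : Equiv.Perm (Fin (m + 1))) (α : Mon m d) :
    perm σ.symm (perm σ α) = α := by
  apply Subtype.ext
  ext i
  show α.1 (σ.symm (σ.symm.symm i)) = α.1 i
  simp

theorem perm_perm' {m d : ℕ} (σ : Equiv.Perm (Fin (m + 1))) (α : Mon m d) :
    perm σ (perm σ.symm α) = α := by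
  apply Subtype.ext
  ext i
  show α.1 (σ.symm.symm (σ.symm i)) = α.1 i
  simp

/-- The permutation of the monomials as an equivalence. -/
noncomputable def permE {m d : ℕ} (σ : Equiv.Perm (Fin (m + 1))) : Mon m d ≃ Mon m d where
  toFun := perm σ
  invFun := perm σ.symm
  left_inv := perm_perm σ
  right_inv := perm_perm' σ

theorem rename_form {A : Type} [CommRing A] {m d : ℕ} (σ : Equiv.Perm (Fin (m + 1)))
    (a : Mon m d → A) : rename σ (form a) = form fun α => a (perm σ.symm α) := by
  unfold form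
  rw [map_sum]
  refine Fintype.sum_equiv (permE σ) _ _ fun α => ?_
  rw [rename_monomial]
  show (monomial (Finsupp.mapDomain σ α.1)) (a α) =
    (monomial (perm σ α).1) (a (perm σ.symm (perm σ α)))
  rw [perm_perm]
  have h : (perm σ α).1 = Finsupp.mapDomain σ α.1 := Finsupp.equivMapDomain_eq_mapDomain σ α.1
  rw [h]

theorem vars_dvd {σ K : Type} [Field K] {Q P : MvPolynomial σ K} (hP : P ≠ 0) (h : Q ∣ P) :
    ∀ x ∈ Q.vars, x ∈ P.vars := by
  intro x hx
  obtain ⟨R, rfl⟩ := h
  rw [mem_vars_iff_degreeOf_ne_zero] at hx ⊢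
  rw [degreeOf_mul_eq (left_ne_zero_of_mul hP) (right_ne_zero_of_mul hP)]
  omega

theorem t_FE : P_FE := by
  classical
  refine ⟨fun σ a => rename_form σ a, ?_⟩
  intro O K _ _ _ _ _ m d hd Δ hΔ hvars Q hQ
  have hne : ∀ i : Fin (m + 1),
      map (algebraMap O K) (rename (perm (Equiv.swap 0 i)) Δ) ≠ 0 := by
    intro i h
    have h1 := (map_injective (algebraMap O K) (IsFractionRing.injective O K))
      (h.trans (map_zero _).symm)
    exact hΔ ((rename_injective _ (permE (Equiv.swap 0 i)).injective)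
      (h1.trans (map_zero _).symm))
  have hv : Q.vars = ∅ := by
    rw [Finset.eq_empty_iff_forall_notMem]
    intro α hα
    have h0 : ∀ i, α.1 i = 0 := by
      intro i
      have h1 := vars_dvd (hne i) (hQ i) α hα
      have h2 := vars_rename _ _ (vars_map _ _ h1)
      rw [Finset.mem_image] at h2
      obtain ⟨γ, hγ, rfl⟩ := h2
      have h3 := hvars γ hγ
      show γ.1 ((Equiv.swap 0 i).symm i) = 0
      rw [Equiv.symm_swap, Equiv.swap_apply_right]
      exact h3
    have h1 := α.2
    have h2 : α.1 = 0 := Finsupp.ext h0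
    rw [h2, map_zero] at h1
    omega
  have hc := vars_eq_empty_iff_eq_C.1 hv
  have hQ0 : Q ≠ 0 := ne_zero_of_dvd_ne_zero (hne 0) (hQ 0)
  have hc0 : Q.coeff 0 ≠ 0 := by
    intro h
    rw [h, C_0] at hc
    exact hQ0 hc
  rw [hc]
  exact (isUnit_iff_ne_zero.2 hc0).map C

end Pool.Agent.Q142.LN
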